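import Pool.Agent.Helper69.MC.StA

/-! Project MC (MP_9583f0_gt), module GRM (helper10): graph and minimal surface equation. -/

set_option autoImplicit false

namespace Pool.Agent.Helper10.MC

open Set Topology Filter MeasureTheory
open Pool.Agent.Helper31.CY Pool.Agent.Helper69.MF Pool.Agent.Helper69.MC
open scoped ContDiff

/-- coordinates -/
noncomputable def emb (v : (ℝ × ℝ) × ℝ) : E3 := v.1.1 • bv 0 + v.1.2 • bv 1 + v.2 • bv 2

theorem emb_cd : ContDiff ℝ 2 emb := by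
  unfold emb
  fun_prop

theorem emb_x (x : E3) : emb ((x 0, x 1), x 2) = x := by
  unfold emb bv
  ext i
  fin_cases i <;> simp

/-- the graph -/
noncomputable def gr (ψ : ℝ × ℝ → ℝ) (q : ℝ × ℝ) : E3 := emb (q, ψ q)

theorem gr_fd {ψ : ℝ × ℝ → ℝ} {q : ℝ × ℝ} (hψ : DifferentiableAt ℝ ψ q) :
    HasFDerivAt (gr ψ) ((ContinuousLinearMap.fst ℝ ℝ ℝ).smulRight (bv 0) +
      (ContinuousLinearMap.snd ℝ ℝ ℝ).smulRight (bv 1) + (fderiv ℝ ψ q).smulRight (bv 2)) q := by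
  have h1 : HasFDerivAt (fun q : ℝ × ℝ => q.1 • (bv 0 : E3)) ((ContinuousLinearMap.fst ℝ ℝ ℝ).smulRight (bv 0)) q :=
    (ContinuousLinearMap.fst ℝ ℝ ℝ).hasFDerivAt.smul_const _
  have h2 : HasFDerivAt (fun q : ℝ × ℝ => q.2 • (bv 1 : E3)) ((ContinuousLinearMap.snd ℝ ℝ ℝ).smulRight (bv 1)) q :=
    (ContinuousLinearMap.snd ℝ ℝ ℝ).hasFDerivAt.smul_const _
  have h3 : HasFDerivAt (fun q : ℝ × ℝ => ψ q • (bv 2 : E3)) ((fderiv ℝ ψ q).smulRight (bv 2)) q :=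
    hψ.hasFDerivAt.smul_const _
  exact (h1.add h2).add h3

/-- chain rule -/
theorem chain {ψ : ℝ × ℝ → ℝ} {q : ℝ × ℝ} (hψ : DifferentiableAt ℝ ψ q) {g : E3 → ℝ}
    (hg : DifferentiableAt ℝ g (gr ψ q)) :
    DifferentiableAt ℝ (fun q => g (gr ψ q)) q ∧
    D1 (fun q => g (gr ψ q)) q = D 0 g (gr ψ q) + D1 ψ q * D 2 g (gr ψ q) ∧
    D2 (fun q => g (gr ψ q)) q = D 1 g (gr ψ q) + D2 ψ q * D 2 g (gr ψ q) := by
  have h := hg.hasFDerivAt.comp q (gr_fd hψ)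
  have h' : HasFDerivAt (fun q => g (gr ψ q)) _ q := h
  refine ⟨h'.differentiableAt, ?_, ?_⟩
  · unfold D1 D
    rw [h'.fderiv]
    simp
  · unfold D2 D
    rw [h'.fderiv]
    simp

theorem d_diff {f : E3 → ℝ} {x : E3} (hf : ContDiffAt ℝ 2 f x) (i : Fin 3) :
    DifferentiableAt ℝ (D i f) x := by
  have h : ContDiffAt ℝ 1 (fderiv ℝ f) x := hf.fderiv_right (by norm_num)
  have h2 : DifferentiableAt ℝ (fderiv ℝ f) x := h.differentiableAt (by norm_num)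
  exact h2.clm_apply (differentiableAt_const _)

theorem d_symm {f : E3 → ℝ} {x : E3} (hf : ContDiffAt ℝ 2 f x) (i j : Fin 3) :
    D i (D j f) x = D j (D i f) x := by
  have h : ContDiffAt ℝ 1 (fderiv ℝ f) x := hf.fderiv_right (by norm_num)
  have h2 : DifferentiableAt ℝ (fderiv ℝ f) x := h.differentiableAt (by norm_num)
  have key : ∀ i j : Fin 3, D i (D j f) x = (fderiv ℝ (fderiv ℝ f) x (bv i)) (bv j) := by
    intro i j
    have h3 := h2.hasFDerivAt.clm_apply (hasFDerivAt_const (bv j) x)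
    change fderiv ℝ (fun y => fderiv ℝ f y (bv j)) x (bv i) = _
    rw [h3.fderiv]
    simp
  rw [key, key]
  have hs : IsSymmSndFDerivAt ℝ f x := hf.isSymmSndFDerivAt (by simp)
  exact hs (bv i) (bv j)

theorem dd_diff {ψ : ℝ × ℝ → ℝ} {q : ℝ × ℝ} (hψ : ContDiffAt ℝ 2 ψ q) :
    DifferentiableAt ℝ (D1 ψ) q ∧ DifferentiableAt ℝ (D2 ψ) q := by
  have h : ContDiffAt ℝ 1 (fderiv ℝ ψ) q := hψ.fderiv_right (by norm_num)
  have h2 : DifferentiableAt ℝ (fderiv ℝ ψ) q := h.differentiableAt (by norm_num)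
  exact ⟨h2.clm_apply (differentiableAt_const _), h2.clm_apply (differentiableAt_const _)⟩

/-- derivatives of `A + B C = 0` -/
theorem prodr {A B C : ℝ × ℝ → ℝ} {q : ℝ × ℝ} (hA : DifferentiableAt ℝ A q) (hB : DifferentiableAt ℝ B q)
    (hC : DifferentiableAt ℝ C q) (h : ∀ᶠ x in 𝓝 q, A x + B x * C x = 0) :
    D1 A q + (D1 B q * C q + B q * D1 C q) = 0 ∧ D2 A q + (D2 B q * C q + B q * D2 C q) = 0 := by
  have h1 : HasFDerivAt (fun x => A x + B x * C x) (fderiv ℝ A q + (B q • fderiv ℝ C q + C q • fderiv ℝ B q)) q :=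
    hA.hasFDerivAt.add (hB.hasFDerivAt.mul hC.hasFDerivAt)
  have h2 : HasFDerivAt (fun x => A x + B x * C x) (0 : ℝ × ℝ →L[ℝ] ℝ) q := by
    have : (fun x => A x + B x * C x) =ᶠ[𝓝 q] fun _ => (0 : ℝ) := h
    exact (hasFDerivAt_const (0 : ℝ) q).congr_of_eventuallyEq this
  have h3 := h1.unique h2
  constructor
  · have := congrArg (fun L : ℝ × ℝ →L[ℝ] ℝ => L (1, 0)) h3
    simp at this
    unfold D1
    linarith
  · have := congrArg (fun L : ℝ × ℝ →L[ℝ] ℝ => L (0, 1)) h3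
    simp at this
    unfold D2
    linarith

/-- elimination -/
theorem elim (f0 f1 f2 a b c d e g u1 u2 u11 u12 u22 : ℝ) (h2 : f2 ≠ 0)
    (e1 : f0 + u1 * f2 = 0) (e2 : f1 + u2 * f2 = 0)
    (e3 : (a + u1 * c) + ((c + u1 * g) * u1 + f2 * u11) = 0)
    (e4 : (b + u2 * c) + ((e + u2 * g) * u1 + f2 * u12) = 0)
    (e5 : (d + u2 * e) + ((e + u2 * g) * u2 + f2 * u22) = 0)
    (hm : (f0 ^ 2 + f1 ^ 2 + f2 ^ 2) * (a + d + g) -
      (f0 ^ 2 * a + f1 ^ 2 * d + f2 ^ 2 * g + 2 * f0 * f1 * b + 2 * f0 * f2 * c + 2 * f1 * f2 * e) = 0) :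
    (1 + u2 ^ 2) * u11 - 2 * u1 * u2 * u12 + (1 + u1 ^ 2) * u22 = 0 := by
  have h0 : f0 = -(u1 * f2) := by linarith
  have h1 : f1 = -(u2 * f2) := by linarith
  rw [h0, h1] at hm
  have h3 : f2 ^ 3 * ((1 + u2 ^ 2) * u11 - 2 * u1 * u2 * u12 + (1 + u1 ^ 2) * u22) = 0 := by
    linear_combination (-1) * hm + f2 ^ 2 * (1 + u2 ^ 2) * e3 - 2 * f2 ^ 2 * u1 * u2 * e4 +
      f2 ^ 2 * (1 + u1 ^ 2) * e5
  rcases mul_eq_zero.1 h3 with h | h
  · exact absurd (pow_eq_zero_iff (by norm_num) |>.1 h) h2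
  · exact h

theorem hGRM : StTC2 → StGRM := by
  intro hTC2 S p hp hreg hT
  obtain ⟨f, U, hU, hpU, hf, hf0, hS, hmse⟩ := hreg
  have hfa : ∀ x ∈ U, ContDiffAt ℝ 2 f x := fun x hx => hf.contDiffAt (hU.mem_nhds hx)
  have hfp : f p = 0 := (hS p hpU).1 hp
  have htc := hTC2 S p f U hU hpU (hf.of_le (by norm_num)) (hf0 p hpU) hfp hS
  have hD2 : D 2 f p ≠ 0 := by
    intro h0
    have h1 := hT (bv 2) ((htc (bv 2)).2 h0)
    simp [bv] at h1
  -- the implicit function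
  set P : (ℝ × ℝ) × ℝ := ((p 0, p 1), p 2) with hP
  have hembP : emb P = p := emb_x p
  have cdf : ContDiffAt ℝ 2 (fun v => f (emb v)) P := by
    have h1 : ContDiffAt ℝ 2 f (emb P) := by rw [hembP]; exact hfa p hpU
    exact h1.comp P emb_cd.contDiffAt
  have hval : fderiv ℝ (fun v => f (emb v)) P ((0, 0), 1) = D 2 f p := by
    have hE : HasFDerivAt emb (((ContinuousLinearMap.fst ℝ ℝ ℝ).comp (ContinuousLinearMap.fst ℝ (ℝ × ℝ) ℝ)).smulRight (bv 0) +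
        ((ContinuousLinearMap.snd ℝ ℝ ℝ).comp (ContinuousLinearMap.fst ℝ (ℝ × ℝ) ℝ)).smulRight (bv 1) +
        (ContinuousLinearMap.snd ℝ (ℝ × ℝ) ℝ).smulRight (bv 2)) P := by
      have h1 := ((ContinuousLinearMap.fst ℝ ℝ ℝ).comp (ContinuousLinearMap.fst ℝ (ℝ × ℝ) ℝ)).hasFDerivAt (x := P)
        |>.smul_const (bv 0 : E3)
      have h2 := ((ContinuousLinearMap.snd ℝ ℝ ℝ).comp (ContinuousLinearMap.fst ℝ (ℝ × ℝ) ℝ)).hasFDerivAt (x := P)
        |>.smul_const (bv 1 : E3)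
      have h3 := (ContinuousLinearMap.snd ℝ (ℝ × ℝ) ℝ).hasFDerivAt (x := P) |>.smul_const (bv 2 : E3)
      exact (h1.add h2).add h3
    have hfd : DifferentiableAt ℝ f (emb P) := by
      rw [hembP]; exact (hfa p hpU).differentiableAt (by norm_num)
    have h4 := hfd.hasFDerivAt.comp P hE
    have h4' : HasFDerivAt (fun v => f (emb v)) _ P := h4
    rw [h4'.fderiv, hembP]
    simp [D]
  have if2 : (fderiv ℝ (fun v => f (emb v)) P ∘L .inr ℝ (ℝ × ℝ) ℝ).IsInvertible := by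
    have h1 : (fderiv ℝ (fun v => f (emb v)) P ∘L .inr ℝ (ℝ × ℝ) ℝ) = (D 2 f p) • ContinuousLinearMap.id ℝ ℝ := by
      ext
      simp only [ContinuousLinearMap.comp_apply, ContinuousLinearMap.inr_apply,
        _root_.smul_apply, ContinuousLinearMap.id_apply, smul_eq_mul, mul_one]
      exact hval
    rw [h1]
    refine ContinuousLinearMap.IsInvertible.of_inverse (g := (D 2 f p)⁻¹ • ContinuousLinearMap.id ℝ ℝ) ?_ ?_
    · ext; simp [hD2]
    · ext; simp [hD2]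
  have h2n : (2 : ℕ∞ω) ≠ 0 := by norm_num
  obtain ⟨ψ, hψ⟩ : ∃ ψ : ℝ × ℝ → ℝ, ψ = cdf.implicitFunction h2n if2 := ⟨_, rfl⟩
  have i1 : ψ (p 0, p 1) = p 2 := by rw [hψ]; exact cdf.implicitFunction_apply_self h2n if2
  have i2 : ∀ᶠ v in 𝓝 P, f (emb v) = 0 ↔ ψ v.1 = v.2 := by
    have := cdf.eventually_apply_eq_iff_implicitFunction h2n if2
    rw [hψ]
    simpa only [hembP, hfp] using this
  have i3 : ContDiffAt ℝ 2 ψ (p 0, p 1) := by rw [hψ]; exact cdf.contDiffAt_implicitFunction h2n if2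
  -- neighbourhoods
  have j1 : ∀ᶠ v in 𝓝 P, emb v ∈ U := by
    have : Tendsto emb (𝓝 P) (𝓝 p) := by
      have h := emb_cd.continuous.tendsto P
      rw [hembP] at h
      exact h
    exact this.eventually (hU.mem_nhds hpU)
  have j2 : ∀ᶠ v in 𝓝 P, D 2 f (emb v) ≠ 0 := by
    have : Tendsto emb (𝓝 P) (𝓝 p) := by
      have h := emb_cd.continuous.tendsto P
      rw [hembP] at h
      exact h
    have hc : ContinuousAt (D 2 f) p := (d_diff (hfa p hpU) 2).continuousAt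
    exact this.eventually (hc.eventually_ne hD2)
  have j3 := (i2.and (j1.and j2))
  rw [hP, nhds_prod_eq, Filter.eventually_prod_iff] at j3
  obtain ⟨pa, hpa, pb, hpb, hab⟩ := j3
  obtain ⟨r, hr, hrb⟩ := Metric.eventually_nhds_iff.1 hpb
  have k1 : ∀ᶠ q in 𝓝 ((p 0, p 1) : ℝ × ℝ), |ψ q - p 2| < r := by
    have hc := i3.continuousAt
    have := Metric.tendsto_nhds.1 hc r hr
    rw [i1] at this
    filter_upwards [this] with q hq
    rw [Real.dist_eq] at hq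
    exact hq
  have k2 : ∀ᶠ q in 𝓝 ((p 0, p 1) : ℝ × ℝ), ContDiffAt ℝ 2 ψ q := i3.eventually (by norm_num)
  obtain ⟨V, hV, hVo, hVp⟩ := eventually_nhds_iff.1 (hpa.and (k1.and k2))
  -- properties in `V`
  have l0 : ∀ q ∈ V, (f (gr ψ q) = 0 ∧ gr ψ q ∈ U ∧ D 2 f (gr ψ q) ≠ 0) := by
    intro q hq
    obtain ⟨v1, v2, v3⟩ := hV q hq
    have hb : pb (ψ q) := hrb (by rw [Real.dist_eq]; exact v2)
    obtain ⟨w1, w2, w3⟩ := hab v1 hb
    exact ⟨w1.2 rfl, w2, w3⟩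
  refine ⟨ψ, V, r, hVo, hVp, hr, ?_, i1, ?_, ?_, ?_⟩
  · intro q hq
    exact (hV q hq).2.2.contDiffWithinAt
  · -- the equation
    have e12 : ∀ q ∈ V, D 0 f (gr ψ q) + D 2 f (gr ψ q) * D1 ψ q = 0 ∧
        D 1 f (gr ψ q) + D 2 f (gr ψ q) * D2 ψ q = 0 := by
      intro q hq
      obtain ⟨w1, w2, w3⟩ := l0 q hq
      have hψd : DifferentiableAt ℝ ψ q := (hV q hq).2.2.differentiableAt (by norm_num)
      obtain ⟨c0, c1, c2⟩ := chain hψd ((hfa _ w2).differentiableAt (by norm_num))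
      have h0 : HasFDerivAt (fun q => f (gr ψ q)) (0 : ℝ × ℝ →L[ℝ] ℝ) q := by
        have : (fun q => f (gr ψ q)) =ᶠ[𝓝 q] fun _ => (0 : ℝ) := by
          filter_upwards [hVo.mem_nhds hq] with x hx
          exact (l0 x hx).1
        exact (hasFDerivAt_const (0 : ℝ) q).congr_of_eventuallyEq this
      unfold D1 at c1
      unfold D2 at c2
      rw [h0.fderiv] at c1 c2
      simp at c1 c2
      unfold D1 D2
      constructor <;> linarith
    intro q hq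
    obtain ⟨w1, w2, w3⟩ := l0 q hq
    have hψ2 := (hV q hq).2.2
    have hψd : DifferentiableAt ℝ ψ q := hψ2.differentiableAt (by norm_num)
    have hfg := hfa _ w2
    obtain ⟨s0, t0, t0'⟩ := chain hψd (d_diff hfg 0)
    obtain ⟨s1, t1, t1'⟩ := chain hψd (d_diff hfg 1)
    obtain ⟨s2, t2, t2'⟩ := chain hψd (d_diff hfg 2)
    obtain ⟨q1, q2⟩ := dd_diff hψ2
    have hVn := hVo.mem_nhds hq
    obtain ⟨a1, a2⟩ := prodr s0 s2 q1 (by filter_upwards [hVn] with x hx; exact (e12 x hx).1)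
    obtain ⟨b1, b2⟩ := prodr s1 s2 q2 (by filter_upwards [hVn] with x hx; exact (e12 x hx).2)
    rw [t0, t2] at a1
    rw [t0', t2'] at a2
    rw [t1', t2'] at b2
    have hm := hmse _ w2 ((hS _ w2).2 w1)
    unfold mse at hm
    simp only [Fin.sum_univ_three] at hm
    rw [d_symm hfg 0 2] at a1
    rw [d_symm hfg 1 2] at a2 b2
    rw [d_symm hfg 1 0, d_symm hfg 2 0, d_symm hfg 2 1] at hm
    rw [d_symm hfg 1 0] at a2
    rw [d_symm hfg 2 0] at a1 a2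
    rw [d_symm hfg 2 1] at a2 b2
    refine elim (D 0 f (gr ψ q)) (D 1 f (gr ψ q)) (D 2 f (gr ψ q)) (D 0 (D 0 f) (gr ψ q))
      (D 0 (D 1 f) (gr ψ q)) (D 0 (D 2 f) (gr ψ q)) (D 1 (D 1 f) (gr ψ q)) (D 1 (D 2 f) (gr ψ q))
      (D 2 (D 2 f) (gr ψ q)) (D1 ψ q) (D2 ψ q) _ _ _ w3 ?_ ?_ ?_ ?_ ?_ ?_
    · linarith [(e12 q hq).1]
    · linarith [(e12 q hq).2]
    · linarith [a1]
    · linarith [a2]
    · linarith [b2]
    · linarith [hm]
  · intro q hq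
    exact (hV q hq).2.1
  · intro x hx hxr
    have hb : pb (x 2) := hrb (by rw [Real.dist_eq]; exact hxr)
    obtain ⟨w1, w2, w3⟩ := hab (hV _ hx).1 hb
    rw [emb_x] at w1 w2
    rw [hS x w2, w1]
    exact eq_comm

end Pool.Agent.Helper10.MC
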